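import Pool.Agent.R501.LP1

/-! Products of two primes in every class, from the variance. -/

set_option autoImplicit false

namespace Pool.Agent.Helper4.TP

open Finset
open Pool.Agent.TH894.PV (G psiAP vq)

lemma units_sum (Q : ℕ) [NeZero Q] (F : ℕ → ℝ) :
    ∑ a ∈ (range Q).filter (fun a => Nat.Coprime a Q), F a = ∑ u : (ZMod Q)ˣ, F (u : ZMod Q).val := by
  symm
  apply sum_nbij (fun u : (ZMod Q)ˣ => (u : ZMod Q).val)
  · intro u _
    rw [mem_filter, mem_range]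
    exact ⟨ZMod.val_lt _, ZMod.val_coe_unit_coprime u⟩
  · intro u _ w _ h
    exact Units.ext (ZMod.val_injective Q h)
  · intro a ha
    rw [mem_coe, mem_filter, mem_range] at ha
    refine ⟨ZMod.unitOfCoprime a ha.2, by simp, ?_⟩
    simp only [ZMod.coe_unitOfCoprime]
    exact ZMod.val_cast_of_lt ha.1
  · intro u _
    rfl

lemma psi_unit (x : ℝ) (Q : ℕ) [NeZero Q] (u : (ZMod Q)ˣ) :
    psiAP x Q (u : ZMod Q).val =
      ∑ n ∈ Icc 1 ⌊x⌋₊, if ((n : ZMod Q) = u) then ArithmeticFunction.vonMangoldt n else 0 := by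
  unfold psiAP
  rw [sum_filter]
  apply sum_congr rfl
  intro n _
  have h : n % Q = (u : ZMod Q).val ↔ (n : ZMod Q) = u := by
    rw [← ZMod.val_natCast]
    exact (ZMod.val_injective Q).eq_iff
  by_cases h1 : (n : ZMod Q) = u
  · rw [if_pos h1, if_pos (h.2 h1)]
  · rw [if_neg h1, if_neg (fun h2 => h1 (h.1 h2))]

/-- the weighted number of the pairs with product in the class `v` -/
noncomputable def RL (x y : ℝ) (Q : ℕ) (v : (ZMod Q)ˣ) : ℝ :=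
  ∑ m ∈ Icc 1 ⌊x⌋₊, ∑ n ∈ Icc 1 ⌊y⌋₊, if ((m : ZMod Q) * (n : ZMod Q) = v) then
    ArithmeticFunction.vonMangoldt m * ArithmeticFunction.vonMangoldt n else 0

lemma RL_eq (x y : ℝ) (Q : ℕ) [NeZero Q] (v : (ZMod Q)ˣ) :
    RL x y Q v = ∑ u : (ZMod Q)ˣ, psiAP x Q (u : ZMod Q).val * psiAP y Q ((u⁻¹ * v : (ZMod Q)ˣ) : ZMod Q).val := by
  unfold RL
  simp only [psi_unit, sum_mul_sum]
  symm
  rw [sum_comm]
  apply sum_congr rfl
  intro m _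
  rw [sum_comm]
  apply sum_congr rfl
  intro n _
  by_cases h : (m : ZMod Q) * (n : ZMod Q) = v
  · rw [if_pos h]
    have hu : IsUnit (m : ZMod Q) := isUnit_of_mul_isUnit_left (h ▸ v.isUnit)
    obtain ⟨w, hw⟩ := hu
    rw [sum_eq_single w]
    · have h2 : (n : ZMod Q) = ((w⁻¹ * v : (ZMod Q)ˣ) : ZMod Q) := by
        rw [Units.val_mul, ← h, ← hw, ← mul_assoc, Units.inv_mul, one_mul]
      rw [if_pos hw.symm, if_pos h2]
    · intro u _ hne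
      rw [if_neg, zero_mul]
      intro h2
      exact hne (Units.ext (h2.symm.trans hw.symm))
    · intro h2
      exact absurd (mem_univ _) h2
  · rw [if_neg h]
    apply sum_eq_zero
    intro u _
    by_cases h1 : (m : ZMod Q) = u
    · by_cases h2 : (n : ZMod Q) = ((u⁻¹ * v : (ZMod Q)ˣ) : ZMod Q)
      · exfalso
        apply h
        rw [h1, h2, Units.val_mul, ← mul_assoc, Units.mul_inv, one_mul]
      · rw [if_neg h2, mul_zero]
    · rw [if_neg h1, zero_mul]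

lemma sum_psi (x : ℝ) (Q : ℕ) [NeZero Q] :
    ∑ u : (ZMod Q)ˣ, psiAP x Q (u : ZMod Q).val = ∑ n ∈ Icc 1 ⌊x⌋₊, vq Q n := by
  simp only [psi_unit]
  rw [sum_comm]
  apply sum_congr rfl
  intro n _
  unfold vq
  by_cases h : n.Coprime Q
  · rw [if_pos h, sum_eq_single (ZMod.unitOfCoprime n h)]
    · rw [if_pos (by simp)]
    · intro u _ hne
      rw [if_neg]
      intro h2
      exact hne (Units.ext (by simp [h2]))
    · intro h2
      exact absurd (mem_univ _) h2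
  · rw [if_neg h]
    apply sum_eq_zero
    intro u _
    rw [if_neg]
    intro h2
    apply h
    rw [← ZMod.isUnit_iff_coprime, h2]
    exact u.isUnit

lemma G_units (x : ℝ) (Q : ℕ) [NeZero Q] :
    G x Q = ∑ u : (ZMod Q)ˣ, (psiAP x Q (u : ZMod Q).val - x / (Nat.totient Q : ℝ)) ^ 2 := by
  unfold G
  exact units_sum Q (fun a => (psiAP x Q a - x / (Nat.totient Q : ℝ)) ^ 2)

lemma G_nonneg (x : ℝ) (Q : ℕ) : 0 ≤ G x Q := sum_nonneg fun _ _ => sq_nonneg _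

/-- the main inequality -/
theorem main_ineq (x y : ℝ) (hx : 0 ≤ x) (hy : 0 ≤ y) (Q : ℕ) [NeZero Q] (v : (ZMod Q)ˣ) :
    |RL x y Q v - x * y / (Nat.totient Q : ℝ)| ≤
      x / (Nat.totient Q : ℝ) * |∑ n ∈ Icc 1 ⌊y⌋₊, vq Q n - y| +
      y / (Nat.totient Q : ℝ) * |∑ n ∈ Icc 1 ⌊x⌋₊, vq Q n - x| + √(G x Q * G y Q) := by
  have hφn : 0 < Nat.totient Q := Nat.totient_pos.2 (Nat.pos_of_ne_zero (NeZero.ne Q))
  obtain ⟨φ, hφe⟩ : ∃ φ, φ = (Nat.totient Q : ℝ) := ⟨_, rfl⟩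
  have hφ : 0 < φ := by rw [hφe]; exact_mod_cast hφn
  have hcard : (Fintype.card (ZMod Q)ˣ : ℝ) = φ := by rw [ZMod.card_units_eq_totient, hφe]
  rw [RL_eq, ← sum_psi, ← sum_psi, G_units, G_units, ← hφe]
  obtain ⟨f, hf⟩ : ∃ f : (ZMod Q)ˣ → ℝ, f = fun u : (ZMod Q)ˣ => psiAP x Q (u : ZMod Q).val - x / φ := ⟨_, rfl⟩
  obtain ⟨g, hg⟩ : ∃ g : (ZMod Q)ˣ → ℝ, g = fun u : (ZMod Q)ˣ => psiAP y Q (u : ZMod Q).val - y / φ := ⟨_, rfl⟩
  have ef : ∀ u : (ZMod Q)ˣ, psiAP x Q (u : ZMod Q).val = x / φ + f u := fun u => by rw [hf]; ring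
  have eg : ∀ u : (ZMod Q)ˣ, psiAP y Q (u : ZMod Q).val = y / φ + g u := fun u => by rw [hg]; ring
  have sf : ∑ u : (ZMod Q)ˣ, f u = ∑ u : (ZMod Q)ˣ, psiAP x Q (u : ZMod Q).val - x := by
    rw [hf, sum_sub_distrib, sum_const, card_univ, nsmul_eq_mul, hcard]
    field_simp
  have sg : ∑ u : (ZMod Q)ˣ, g u = ∑ u : (ZMod Q)ˣ, psiAP y Q (u : ZMod Q).val - y := by
    rw [hg, sum_sub_distrib, sum_const, card_univ, nsmul_eq_mul, hcard]
    field_simp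
  have e : ∀ F : (ZMod Q)ˣ → ℝ, ∑ u : (ZMod Q)ˣ, F (u⁻¹ * v) = ∑ u : (ZMod Q)ˣ, F u := fun F =>
    Equiv.sum_comp ((Equiv.inv (ZMod Q)ˣ).trans (Equiv.mulRight v)) F
  have h1 : ∑ u : (ZMod Q)ˣ, psiAP x Q (u : ZMod Q).val * psiAP y Q ((u⁻¹ * v : (ZMod Q)ˣ) : ZMod Q).val -
      x * y / φ = x / φ * ∑ u : (ZMod Q)ˣ, g u + y / φ * ∑ u : (ZMod Q)ˣ, f u + ∑ u : (ZMod Q)ˣ, f u * g (u⁻¹ * v) := by
    have h2 : ∀ u : (ZMod Q)ˣ, psiAP x Q (u : ZMod Q).val * psiAP y Q ((u⁻¹ * v : (ZMod Q)ˣ) : ZMod Q).val =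
        x / φ * (y / φ) + x / φ * g (u⁻¹ * v) + y / φ * f u + f u * g (u⁻¹ * v) := by
      intro u
      rw [ef u, eg (u⁻¹ * v)]
      ring
    rw [sum_congr rfl fun u _ => h2 u, sum_add_distrib, sum_add_distrib, sum_add_distrib, sum_const, card_univ,
      nsmul_eq_mul, hcard, ← mul_sum, ← mul_sum, e g]
    field_simp
    ring
  have h3 : |∑ u : (ZMod Q)ˣ, f u * g (u⁻¹ * v)| ≤ √((∑ u : (ZMod Q)ˣ, f u ^ 2) * ∑ u : (ZMod Q)ˣ, g u ^ 2) := by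
    apply Real.abs_le_sqrt
    rw [← e (fun u => g u ^ 2)]
    exact sum_mul_sq_le_sq_mul_sq _ _ _
  have h4 : ∑ u : (ZMod Q)ˣ, (psiAP x Q (u : ZMod Q).val - x / φ) ^ 2 = ∑ u : (ZMod Q)ˣ, f u ^ 2 := by rw [hf]
  have h5 : ∑ u : (ZMod Q)ˣ, (psiAP y Q (u : ZMod Q).val - y / φ) ^ 2 = ∑ u : (ZMod Q)ˣ, g u ^ 2 := by rw [hg]
  rw [h1, h4, h5, ← sf, ← sg]
  refine (abs_add_le _ _).trans (add_le_add ((abs_add_le _ _).trans (add_le_add ?_ ?_)) h3)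
  · rw [abs_mul, abs_of_nonneg (by positivity : 0 ≤ x / φ)]
  · rw [abs_mul, abs_of_nonneg (by positivity : 0 ≤ y / φ)]

end Pool.Agent.Helper4.TP
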