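import Pool.Agent.Helper4.TP.Var
import Pool.Agent.Helper82K9.TF.TF6

/-! Products of two primes in every class, for almost all moduli of a thin family. -/

set_option autoImplicit false

namespace Pool.Agent.Helper4.TP

open Finset
open Pool.Agent.TH212.EH (En)
open Pool.Agent.Helper82K9.TF (few_small En_zero log_pow_lt ev_pow_log)

open Classical in
/-- products of two primes in every class for almost all moduli of a family of nearly minimal energy -/
theorem tp_family (h C A U : ℕ) (hh : 1 ≤ h) (ε : ℝ) (hε : 0 < ε) (hε1 : ε ≤ 1) : ∃ N₀ : ℕ, ∀ N : ℕ, N₀ ≤ N →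
    ∀ (ι : Type) [Fintype ι] (v : ι → ℤ), (∀ i, |v i| ≤ N) →
    (En h v : ℝ) * N ≤ Real.log N ^ C * (Fintype.card ι : ℝ) ^ (2 * h) →
    ((univ.filter (fun i => 0 < v i ∧ ¬ Every ε A (v i).toNat)).card : ℝ) ≤ Fintype.card ι / Real.log N ^ U := by
  obtain ⟨W, n1, h1⟩ := few_small h C (U + 1) hh
  obtain ⟨n2, h2⟩ := Pool.Agent.Results.MP_5d318d_nt.ThinFamilyModuli.first h C (max W A) (U + 1) (ε / 4) (by linarith)
    (by linarith)
  obtain ⟨Q₀, h4⟩ := of_var A ε hε hε1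
  obtain ⟨n5, h5⟩ := Pool.Agent.H373R2.T7.ev_log' (max W A) ((Q₀ + 3 : ℕ) : ℝ)
  obtain ⟨n6, h6⟩ : ∃ n : ℕ, ∀ N : ℕ, n ≤ N → (2 : ℝ) ≤ Real.log N := by
    have ht : Filter.Tendsto (fun N : ℕ => Real.log (N : ℝ)) Filter.atTop Filter.atTop :=
      Real.tendsto_log_atTop.comp tendsto_natCast_atTop_atTop
    exact Filter.eventually_atTop.1 (ht.eventually_ge_atTop _)
  refine ⟨n1 + n2 + n5 + n6 + 3, fun N hN ι _ v hv hE => ?_⟩
  have r1 := h1 (max W A) (le_max_left _ _) N (by omega) ι v hE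
  have r2 := h2 N (by omega) ι v hv hE
  have hbig := h5 N (by omega)
  have hL2 := h6 N (by omega)
  unfold Pool.Agent.Results.MP_5d318d_nt.ThinFamilyModuli.exceptions at r2
  have hN3 : 3 ≤ N := by omega
  obtain ⟨L, hLe⟩ : ∃ L, L = Real.log (N : ℝ) := ⟨_, rfl⟩
  have hL0 : 0 < L := by rw [hLe]; linarith
  have hsub : univ.filter (fun i => 0 < v i ∧ ¬ Every ε A (v i).toNat) ⊆
      univ.filter (fun i => 0 < v i ∧ (v i : ℝ) * Real.log N ^ (max W A) < N) ∪
      univ.filter (fun i => 0 < v i ∧ (N : ℝ) ≤ v i * Real.log N ^ (max W A) ∧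
        ¬ Pool.Agent.Results.MP_5d318d_nt.ThinFamilyModuli.Good (ε / 4) (max W A) N (v i).toNat) := by
    intro i hi
    rw [mem_filter] at hi
    rw [mem_union, mem_filter, mem_filter]
    rcases lt_or_ge ((v i : ℝ) * Real.log N ^ (max W A)) N with h7 | h7
    · exact Or.inl ⟨mem_univ _, hi.2.1, h7⟩
    · refine Or.inr ⟨mem_univ _, hi.2.1, h7, fun hg => hi.2.2 ?_⟩
      have h8 : (v i : ℝ) = (((v i).toNat : ℕ) : ℝ) := by
        have : (((v i).toNat : ℕ) : ℤ) = v i := Int.toNat_of_nonneg hi.2.1.le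
        exact_mod_cast this.symm
      rw [h8] at h7
      have hN0 : (0 : ℝ) < N := by exact_mod_cast (by omega : 0 < N)
      have hN1 : (1 : ℝ) ≤ N := by exact_mod_cast (by omega : 1 ≤ N)
      have hsq : √(N : ℝ) * √(N : ℝ) = N := Real.mul_self_sqrt hN0.le
      have hs0 : 0 < √(N : ℝ) := Real.sqrt_pos.2 hN0
      have hs1 : 1 ≤ √(N : ℝ) := by rw [Real.one_le_sqrt]; exact hN1
      have hp0 : 0 ≤ Real.log (N : ℝ) ^ (max W A) := pow_nonneg (Real.log_natCast_nonneg _) _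
      have h9 : ((Q₀ + 3 : ℕ) : ℝ) ≤ (((v i).toNat : ℕ) : ℝ) := by
        by_contra hcon
        push Not at hcon
        have h10 : (N : ℝ) ≤ ((Q₀ + 3 : ℕ) : ℝ) * Real.log (N : ℝ) ^ (max W A) :=
          h7.trans (mul_le_mul_of_nonneg_right hcon.le hp0)
        have h11 : √(N : ℝ) * √(N : ℝ) ≤ √(N : ℝ) * 1 := by rw [hsq, mul_one]; linarith
        have h12 : √(N : ℝ) ≤ 1 := le_of_mul_le_mul_left h11 hs0
        have h13 : √(N : ℝ) = 1 := le_antisymm h12 hs1
        rw [h13, one_mul] at hsq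
        have h14 : (3 : ℝ) ≤ N := by exact_mod_cast hN3
        linarith
      have h10 : Q₀ + 3 ≤ (v i).toNat := by exact_mod_cast h9
      apply h4 _ (by omega)
      intro x hx1 hx2
      refine hg x hx1 (hx2.trans ?_)
      have hQ0 : (0 : ℝ) ≤ ((v i).toNat : ℝ) := Nat.cast_nonneg _
      apply mul_le_mul_of_nonneg_left _ hQ0
      have hQ1 : 1 ≤ (v i).toNat := by omega
      have hQN : (v i).toNat ≤ N := by
        have h5 := (abs_le.1 (hv i)).2
        omega
      have hlog : Real.log ((v i).toNat : ℝ) ≤ Real.log N :=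
        Real.log_le_log (by exact_mod_cast hQ1) (by exact_mod_cast hQN)
      have hlog0 : 0 ≤ Real.log ((v i).toNat : ℝ) := Real.log_natCast_nonneg _
      calc Real.log ((v i).toNat : ℝ) ^ A ≤ Real.log N ^ A := pow_le_pow_left₀ hlog0 hlog A
        _ ≤ Real.log N ^ (max W A) := pow_le_pow_right₀ (by linarith) (le_max_right _ _)
  have hcard := (card_le_card hsub).trans (card_union_le _ _)
  have hcardR : ((univ.filter (fun i => 0 < v i ∧ ¬ Every ε A (v i).toNat)).card : ℝ) ≤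
      ((univ.filter (fun i => 0 < v i ∧ (v i : ℝ) * Real.log N ^ (max W A) < N)).card : ℝ) +
      ((univ.filter (fun i => 0 < v i ∧ (N : ℝ) ≤ v i * Real.log N ^ (max W A) ∧
        ¬ Pool.Agent.Results.MP_5d318d_nt.ThinFamilyModuli.Good (ε / 4) (max W A) N (v i).toNat)).card : ℝ) := by
    exact_mod_cast hcard
  refine hcardR.trans ((add_le_add r1 r2).trans ?_)
  rw [← hLe] at hL2 ⊢
  have e1 : (Fintype.card ι : ℝ) / L ^ (U + 1) + (Fintype.card ι : ℝ) / L ^ (U + 1) = (Fintype.card ι : ℝ) / L ^ U * (2 / L) := by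
    rw [pow_succ]
    field_simp
    ring
  rw [e1]
  apply mul_le_of_le_one_right (by positivity)
  rw [div_le_one hL0]
  exact hL2

open Classical in
/-- families with values up to `B N` -/
theorem tp_familyB (h B C A U : ℕ) (ε : ℝ) (hε : 0 < ε) (hε1 : ε ≤ 1) : ∃ N₀ : ℕ, ∀ N : ℕ, N₀ ≤ N →
    ∀ (ι : Type) [Fintype ι] (v : ι → ℤ), (∀ i, |v i| ≤ B * (N : ℤ)) →
    (En h v : ℝ) * N ≤ Real.log N ^ C * (Fintype.card ι : ℝ) ^ (2 * h) →
    ((univ.filter (fun i => 0 < v i ∧ ¬ Every ε A (v i).toNat)).card : ℝ) ≤ Fintype.card ι / Real.log N ^ U := by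
  rcases Nat.eq_zero_or_pos h with h0 | hh
  · subst h0
    obtain ⟨n, hn⟩ := log_pow_lt C
    refine ⟨n, fun N hN ι _ v _ hE => ?_⟩
    rw [En_zero, mul_zero, pow_zero] at hE
    push_cast at hE
    have := hn N hN
    linarith
  obtain ⟨n1, h1⟩ := tp_family h (C + 1) A U hh ε hε hε1
  obtain ⟨n2, h2⟩ := ev_pow_log ((B : ℝ) + 1) 1 le_rfl
  refine ⟨n1 + n2 + 1, fun N hN ι _ v hv hE => ?_⟩
  obtain ⟨hL, hL1⟩ := h2 N (by omega)
  rw [pow_one] at hL
  have hN0 : (0 : ℝ) < N := by exact_mod_cast (by omega : 0 < N)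
  have hle : N ≤ (B + 1) * N := Nat.le_mul_of_pos_left _ (by omega)
  have hlog : Real.log (N : ℝ) ≤ Real.log (((B + 1) * N : ℕ) : ℝ) :=
    Real.log_le_log hN0 (by exact_mod_cast hle)
  have hL0 : 0 < Real.log (N : ℝ) := by linarith
  have h3 := h1 ((B + 1) * N) (by omega) ι v (fun i => (hv i).trans (by
    push_cast
    have : (0 : ℤ) ≤ N := Int.natCast_nonneg _
    nlinarith)) (by
    calc (En h v : ℝ) * (((B + 1) * N : ℕ) : ℝ) = ((B : ℝ) + 1) * ((En h v : ℝ) * N) := by push_cast; ring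
      _ ≤ Real.log N * (Real.log N ^ C * (Fintype.card ι : ℝ) ^ (2 * h)) := by
          apply mul_le_mul hL hE (by positivity) hL0.le
      _ = Real.log N ^ (C + 1) * (Fintype.card ι : ℝ) ^ (2 * h) := by rw [pow_succ]; ring
      _ ≤ _ := by
          apply mul_le_mul_of_nonneg_right _ (by positivity)
          exact pow_le_pow_left₀ hL0.le hlog _)
  refine h3.trans ?_
  apply div_le_div_of_nonneg_left (by positivity) (by positivity)
  exact pow_le_pow_left₀ hL0.le hlog _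

end Pool.Agent.Helper4.TP
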