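import Pool.Agent.Helper4.TP.Core

/-! From prime powers to primes, and the theorem for one modulus. -/

set_option autoImplicit false

namespace Pool.Agent.Helper4.TP

open Finset
open Pool.Agent.TH894.PV (G psiAP vq first)
open ArithmeticFunction (vonMangoldt vonMangoldt_nonneg vonMangoldt_le_log vonMangoldt_apply_prime)

/-- the weighted number of the pairs of primes with product in the class `c` -/
noncomputable def products (x y : ℝ) (Q c : ℕ) : ℝ :=
  ∑ p ∈ (Icc 1 ⌊x⌋₊).filter Nat.Prime, ∑ q ∈ (Icc 1 ⌊y⌋₊).filter Nat.Prime,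
    if p * q % Q = c then Real.log p * Real.log q else 0

lemma card_class {Q c : ℕ} (hQ : 0 < Q) (hc : c.Coprime Q) (m Y : ℕ) :
    ((Icc 1 Y).filter (fun n => m * n % Q = c)).card ≤ Y / Q + 1 := by
  rw [← card_range (Y / Q + 1)]
  apply card_le_card_of_injOn (fun n => n / Q)
  · intro n hn
    rw [mem_coe, mem_filter, mem_Icc] at hn
    rw [mem_coe, mem_range]
    have := Nat.div_le_div_right (c := Q) hn.1.2
    simp only
    omega
  · intro n hn n' hn' h
    rw [mem_coe, mem_filter, mem_Icc] at hn hn'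
    simp only at h
    have hcop : (m * n).Coprime Q := by
      unfold Nat.Coprime at hc ⊢
      rw [← hn.2, ← Nat.gcd_rec, Nat.gcd_comm] at hc
      exact hc
    have hm : m.Coprime Q := Nat.Coprime.coprime_mul_right hcop
    have h1 : m * n ≡ m * n' [MOD Q] := by
      unfold Nat.ModEq
      rw [hn.2, hn'.2]
    have h2 : n ≡ n' [MOD Q] := Nat.ModEq.cancel_left_of_coprime (by rw [Nat.gcd_comm]; exact hm) h1
    have h3 := Nat.div_add_mod n Q
    have h4 := Nat.div_add_mod n' Q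
    unfold Nat.ModEq at h2
    rw [h, h2] at h3
    omega

lemma sum_class {Q c : ℕ} (hQ : 0 < Q) (hc : c.Coprime Q) (m : ℕ) {y : ℝ} (hy : 1 ≤ y) :
    ∑ n ∈ Icc 1 ⌊y⌋₊, (if m * n % Q = c then vonMangoldt n else 0) ≤ (y / Q + 1) * Real.log y := by
  have hQr : (0 : ℝ) < Q := by exact_mod_cast hQ
  rw [← sum_filter]
  have h1 : ∀ n ∈ (Icc 1 ⌊y⌋₊).filter (fun n => m * n % Q = c), vonMangoldt n ≤ Real.log y := by
    intro n hn
    rw [mem_filter, mem_Icc] at hn
    refine vonMangoldt_le_log.trans ?_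
    have h2 : (n : ℝ) ≤ y := (Nat.cast_le.2 hn.1.2).trans (Nat.floor_le (by linarith))
    exact Real.log_le_log (by exact_mod_cast hn.1.1) h2
  refine (sum_le_sum h1).trans ?_
  rw [sum_const, nsmul_eq_mul]
  apply mul_le_mul_of_nonneg_right _ (Real.log_nonneg hy)
  have h2 : ((((Icc 1 ⌊y⌋₊).filter (fun n => m * n % Q = c)).card : ℕ) : ℝ) ≤ ((⌊y⌋₊ / Q + 1 : ℕ) : ℝ) := by
    exact_mod_cast card_class hQ hc m _
  refine h2.trans ?_
  push_cast
  have h3 : ((⌊y⌋₊ / Q : ℕ) : ℝ) ≤ (⌊y⌋₊ : ℝ) / Q := Nat.cast_div_le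
  have h4 : (⌊y⌋₊ : ℝ) / Q ≤ y / Q := div_le_div_of_nonneg_right (Nat.floor_le (by linarith)) hQr.le
  linarith

/-- the proper prime powers -/
noncomputable def D (n : ℕ) : ℝ := if n.Prime then 0 else vonMangoldt n

lemma D_nonneg (n : ℕ) : 0 ≤ D n := by
  unfold D
  split_ifs
  · exact le_rfl
  · exact vonMangoldt_nonneg

lemma D_sum {x : ℝ} (hx : 1 ≤ x) : ∑ n ∈ Icc 1 ⌊x⌋₊, D n ≤ 2 * √x * Real.log x := by
  refine le_trans (le_of_eq ?_) (Chebyshev.psi_sub_theta_le hx)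
  rw [Chebyshev.psi_sub_theta_eq_sum_not_prime, sum_filter]
  have h : Icc 1 ⌊x⌋₊ = Ioc 0 ⌊x⌋₊ := by
    ext n
    rw [mem_Icc, mem_Ioc]
    omega
  rw [h]
  apply sum_congr rfl
  intro n _
  unfold D
  by_cases hn : n.Prime
  · rw [if_pos hn, if_neg (not_not.2 hn)]
  · rw [if_neg hn, if_pos hn]

lemma RL_cond (x y : ℝ) {Q c : ℕ} [NeZero Q] (hcQ : c < Q) (hc : c.Coprime Q) :
    RL x y Q (ZMod.unitOfCoprime c hc) =
      ∑ m ∈ Icc 1 ⌊x⌋₊, ∑ n ∈ Icc 1 ⌊y⌋₊, if m * n % Q = c then vonMangoldt m * vonMangoldt n else 0 := by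
  unfold RL
  apply sum_congr rfl
  intro m _
  apply sum_congr rfl
  intro n _
  have h : (m : ZMod Q) * (n : ZMod Q) = (ZMod.unitOfCoprime c hc : ZMod Q) ↔ m * n % Q = c := by
    rw [ZMod.coe_unitOfCoprime, ← Nat.cast_mul, ZMod.natCast_eq_natCast_iff, Nat.ModEq, Nat.mod_eq_of_lt hcQ]
  by_cases h1 : m * n % Q = c
  · rw [if_pos h1, if_pos (h.2 h1)]
  · rw [if_neg h1, if_neg (fun h2 => h1 (h.1 h2))]

lemma products_cond (x y : ℝ) (Q c : ℕ) :
    products x y Q c = ∑ m ∈ Icc 1 ⌊x⌋₊, ∑ n ∈ Icc 1 ⌊y⌋₊,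
      if m * n % Q = c then (vonMangoldt m - D m) * (vonMangoldt n - D n) else 0 := by
  have hP : ∀ n : ℕ, vonMangoldt n - D n = if n.Prime then Real.log n else 0 := by
    intro n
    unfold D
    by_cases hn : n.Prime
    · rw [if_pos hn, if_pos hn, vonMangoldt_apply_prime hn, sub_zero]
    · rw [if_neg hn, if_neg hn, sub_self]
  unfold products
  rw [sum_filter]
  apply sum_congr rfl
  intro m _
  by_cases hm : m.Prime
  · rw [if_pos hm, sum_filter]
    apply sum_congr rfl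
    intro n _
    rw [hP, hP, if_pos hm]
    by_cases hn : n.Prime
    · rw [if_pos hn, if_pos hn]
    · rw [if_neg hn, if_neg hn, mul_zero, ite_self]
  · rw [if_neg hm]
    symm
    apply sum_eq_zero
    intro n _
    rw [hP, if_neg hm, zero_mul, ite_self]

/-- the contribution of the prime powers -/
lemma diff {x y : ℝ} (hx : 1 ≤ x) (hy : 1 ≤ y) {Q c : ℕ} [NeZero Q] (hcQ : c < Q) (hc : c.Coprime Q) :
    |RL x y Q (ZMod.unitOfCoprime c hc) - products x y Q c| ≤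
      2 * √x * Real.log x * ((y / Q + 1) * Real.log y) + 2 * √y * Real.log y * ((x / Q + 1) * Real.log x) := by
  have hQ : 0 < Q := Nat.pos_of_ne_zero (NeZero.ne Q)
  have hDle : ∀ n : ℕ, D n ≤ vonMangoldt n := by
    intro n
    unfold D
    split_ifs
    · exact vonMangoldt_nonneg
    · exact le_rfl
  rw [RL_cond x y hcQ hc, products_cond, ← sum_sub_distrib]
  have h0 : ∑ m ∈ Icc 1 ⌊x⌋₊, ((∑ n ∈ Icc 1 ⌊y⌋₊, if m * n % Q = c then vonMangoldt m * vonMangoldt n else 0) -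
      ∑ n ∈ Icc 1 ⌊y⌋₊, if m * n % Q = c then (vonMangoldt m - D m) * (vonMangoldt n - D n) else 0) =
      ∑ m ∈ Icc 1 ⌊x⌋₊, ∑ n ∈ Icc 1 ⌊y⌋₊, (if m * n % Q = c then
        vonMangoldt m * vonMangoldt n - (vonMangoldt m - D m) * (vonMangoldt n - D n) else 0) := by
    apply sum_congr rfl
    intro m _
    rw [← sum_sub_distrib]
    apply sum_congr rfl
    intro n _
    split_ifs
    · rfl
    · rw [sub_zero]
  rw [h0, abs_of_nonneg]
  swap
  · apply sum_nonneg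
    intro m _
    apply sum_nonneg
    intro n _
    split_ifs
    · have h1 := D_nonneg m
      have h2 := D_nonneg n
      have h3 := hDle m
      have h4 := hDle n
      nlinarith [mul_nonneg h1 (h2.trans h4), mul_nonneg (sub_nonneg.2 h3) h2]
    · exact le_rfl
  have h1 : ∀ m ∈ Icc 1 ⌊x⌋₊, ∀ n ∈ Icc 1 ⌊y⌋₊, (if m * n % Q = c then
        vonMangoldt m * vonMangoldt n - (vonMangoldt m - D m) * (vonMangoldt n - D n) else 0) ≤
      D m * (if m * n % Q = c then vonMangoldt n else 0) + D n * (if n * m % Q = c then vonMangoldt m else 0) := by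
    intro m _ n _
    rw [mul_comm n m]
    split_ifs
    · have h1 := D_nonneg m
      have h2 := D_nonneg n
      nlinarith [mul_nonneg h1 h2]
    · simp
  refine (sum_le_sum fun m hm => sum_le_sum fun n hn => h1 m hm n hn).trans ?_
  have e1 : ∑ m ∈ Icc 1 ⌊x⌋₊, ∑ n ∈ Icc 1 ⌊y⌋₊,
      (D m * (if m * n % Q = c then vonMangoldt n else 0) + D n * (if n * m % Q = c then vonMangoldt m else 0)) =
      ∑ m ∈ Icc 1 ⌊x⌋₊, D m * ∑ n ∈ Icc 1 ⌊y⌋₊, (if m * n % Q = c then vonMangoldt n else 0) +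
      ∑ n ∈ Icc 1 ⌊y⌋₊, D n * ∑ m ∈ Icc 1 ⌊x⌋₊, (if n * m % Q = c then vonMangoldt m else 0) := by
    rw [sum_congr rfl fun m _ => sum_add_distrib, sum_add_distrib]
    congr 1
    · apply sum_congr rfl
      intro m _
      rw [mul_sum]
    · rw [sum_comm]
      apply sum_congr rfl
      intro n _
      rw [mul_sum]
  rw [e1]
  have hly := Real.log_nonneg hy
  have hlx := Real.log_nonneg hx
  apply add_le_add
  · calc ∑ m ∈ Icc 1 ⌊x⌋₊, D m * ∑ n ∈ Icc 1 ⌊y⌋₊, (if m * n % Q = c then vonMangoldt n else 0) ≤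
        ∑ m ∈ Icc 1 ⌊x⌋₊, D m * ((y / Q + 1) * Real.log y) :=
          sum_le_sum fun m _ => mul_le_mul_of_nonneg_left (sum_class hQ hc m hy) (D_nonneg m)
      _ = (∑ m ∈ Icc 1 ⌊x⌋₊, D m) * ((y / Q + 1) * Real.log y) := (sum_mul _ _ _).symm
      _ ≤ _ := mul_le_mul_of_nonneg_right (D_sum hx) (by positivity)
  · calc ∑ m ∈ Icc 1 ⌊y⌋₊, D m * ∑ n ∈ Icc 1 ⌊x⌋₊, (if m * n % Q = c then vonMangoldt n else 0) ≤
        ∑ m ∈ Icc 1 ⌊y⌋₊, D m * ((x / Q + 1) * Real.log x) :=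
          sum_le_sum fun m _ => mul_le_mul_of_nonneg_left (sum_class hQ hc m hx) (D_nonneg m)
      _ = (∑ m ∈ Icc 1 ⌊y⌋₊, D m) * ((x / Q + 1) * Real.log x) := (sum_mul _ _ _).symm
      _ ≤ _ := mul_le_mul_of_nonneg_right (D_sum hy) (by positivity)

end Pool.Agent.Helper4.TP
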