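import Pool.Agent.Helper4.TP.Prm
import Pool.Agent.H373R2.T7.Minor

/-! Products of two primes in every class, one modulus with a small variance. -/

set_option autoImplicit false

namespace Pool.Agent.Helper4.TP

open Finset
open Pool.Agent.TH894.PV (G psiAP vq first)

/-- the property of the modulus `d` -/
def Every (ε : ℝ) (A d : ℕ) : Prop :=
  ∀ x y : ℝ, (d : ℝ) ≤ x → x ≤ d * Real.log d ^ A → (d : ℝ) ≤ y → y ≤ d * Real.log d ^ A →
    ∀ c < d, c.Coprime d → |products x y d c - x * y / (Nat.totient d : ℝ)| ≤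
      (ε + (1 + ε) * ((Nat.totient d : ℝ) * Real.log d / √(x * y))) * (x * y / (Nat.totient d : ℝ))

lemma pp_bound {ε l x y Q φ : ℝ} (hε : 0 < ε) (hQ : 1 ≤ Q) (hl0 : 0 ≤ l) (hφ0 : 0 < φ) (hφQ : φ ≤ Q) (hx : Q ≤ x) (hy : Q ≤ y)
    (hlx : Real.log x ≤ 2 * l) (hly : Real.log y ≤ 2 * l) (hl : 64 / ε * l ^ 2 ≤ √Q) :
    2 * √x * Real.log x * ((y / Q + 1) * Real.log y) ≤ ε / 4 * (x * y / φ) := by
  have hQ0 : 0 < Q := by linarith
  have hx0 : 0 < x := by linarith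
  have hy0 : 0 < y := by linarith
  have hly0 : 0 ≤ Real.log y := Real.log_nonneg (by linarith)
  have hlx0 : 0 ≤ Real.log x := Real.log_nonneg (by linarith)
  have h1 : y / Q + 1 ≤ 2 * (y / Q) := by
    have : 1 ≤ y / Q := by rw [le_div_iff₀ hQ0]; linarith
    linarith
  have hyQ : 0 ≤ y / Q := by positivity
  have hs : 64 / ε * l ^ 2 ≤ √x := hl.trans (Real.sqrt_le_sqrt hx)
  have hss : √x * √x = x := Real.mul_self_sqrt hx0.le
  have hs0 : 0 ≤ √x := Real.sqrt_nonneg x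
  have h2 : 2 * √x * Real.log x * ((y / Q + 1) * Real.log y) ≤ 2 * √x * (2 * l) * (2 * (y / Q) * (2 * l)) := by
    gcongr
  have h3 : 16 * l ^ 2 ≤ ε / 4 * √x := by
    have h4 : ε / 4 * (64 / ε * l ^ 2) ≤ ε / 4 * √x := mul_le_mul_of_nonneg_left hs (by positivity)
    have h5 : ε / 4 * (64 / ε * l ^ 2) = 16 * l ^ 2 := by field_simp; ring
    linarith
  calc 2 * √x * Real.log x * ((y / Q + 1) * Real.log y) ≤ 2 * √x * (2 * l) * (2 * (y / Q) * (2 * l)) := h2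
    _ = √x * (16 * l ^ 2) * (y / Q) := by ring
    _ ≤ √x * (ε / 4 * √x) * (y / Q) := by gcongr
    _ = ε / 4 * (x * y / Q) := by
        rw [show √x * (ε / 4 * √x) * (y / Q) = ε / 4 * ((√x * √x) * y / Q) by ring, hss]
    _ ≤ ε / 4 * (x * y / φ) := by gcongr

theorem of_var (A : ℕ) (ε : ℝ) (hε : 0 < ε) (hε1 : ε ≤ 1) : ∃ Q₀ : ℕ, ∀ Q : ℕ, Q₀ ≤ Q →
    (∀ x : ℝ, (Q : ℝ) ≤ x → x ≤ Q * Real.log Q ^ A → |G x Q - x * Real.log Q| ≤ ε / 4 * (x * Real.log Q)) →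
    Every ε A Q := by
  obtain ⟨C, hC, n1, h1⟩ := first 1
  obtain ⟨n2, h2⟩ := Pool.Agent.H373R2.T7.ev_L' (16 * C / ε + 16 / ε + 2)
  obtain ⟨n3, h3⟩ := Pool.Agent.H373R2.T7.ev_log' A 1
  obtain ⟨n4, h4⟩ := Pool.Agent.H373R2.T7.ev_log' 2 (64 / ε)
  refine ⟨n1 + n2 + n3 + n4 + 3, fun Q hQ hvar x y hx1 hx2 hy1 hy2 c hcQ hc => ?_⟩
  have hQn : Q ≠ 0 := by omega
  have : NeZero Q := ⟨hQn⟩
  have a2 := h2 Q (by omega)
  have a3 := h3 Q (by omega)
  have a4 := h4 Q (by omega)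
  obtain ⟨l, hl⟩ : ∃ l, l = Real.log (Q : ℝ) := ⟨_, rfl⟩
  rw [← hl] at a2 a3 a4 hx2 hy2 hvar ⊢
  have p1 : 0 < 16 * C / ε := by positivity
  have p2 : 0 < 16 / ε := by positivity
  have hl2 : 2 ≤ l := by linarith
  have hl0 : 0 < l := by linarith
  have hQ3 : (3 : ℝ) ≤ Q := by exact_mod_cast (by omega : 3 ≤ Q)
  have hQ0 : (0 : ℝ) < Q := by linarith
  have hQ1 : (1 : ℝ) ≤ Q := by linarith
  have hlQ : l ≤ Q := by
    rw [hl]
    have := Real.log_le_sub_one_of_pos hQ0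
    linarith
  obtain ⟨φ, hφe⟩ : ∃ φ, φ = (Nat.totient Q : ℝ) := ⟨_, rfl⟩
  have hφ : 0 < φ := by
    rw [hφe]
    exact_mod_cast Nat.totient_pos.2 (by omega : 0 < Q)
  have hφQ : φ ≤ Q := by
    rw [hφe]
    exact_mod_cast Nat.totient_le Q
  have hx0 : 0 < x := by linarith
  have hy0 : 0 < y := by linarith
  -- logarithms
  have hlog : ∀ z : ℝ, (Q : ℝ) ≤ z → z ≤ Q * l ^ A → Real.log z ≤ 2 * l := by
    intro z hz1 hz2
    have e1 : l ^ A ≤ Q := by
      rw [one_mul] at a3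
      refine a3.trans ?_
      rw [Real.sqrt_le_left hQ0.le]
      nlinarith
    have e2 : z ≤ (Q : ℝ) ^ 2 := by
      refine hz2.trans ?_
      rw [pow_two]
      exact mul_le_mul_of_nonneg_left e1 hQ0.le
    calc Real.log z ≤ Real.log ((Q : ℝ) ^ 2) := Real.log_le_log (by linarith) e2
      _ = 2 * l := by rw [Real.log_pow, hl]; push_cast; ring
  -- the prime number theorem
  have hS : ∀ z : ℝ, (Q : ℝ) ≤ z → |∑ n ∈ Icc 1 ⌊z⌋₊, vq Q n - z| ≤ ε / 8 * z := by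
    intro z hz
    have hz0 : 0 < z := by linarith
    obtain ⟨Z, hZ⟩ : ∃ Z, Z = ⌊z⌋₊ := ⟨_, rfl⟩
    have hZz : (Z : ℝ) ≤ z := by rw [hZ]; exact Nat.floor_le hz0.le
    have hzZ : z < Z + 1 := by rw [hZ]; exact Nat.lt_floor_add_one z
    have hQZ : Q ≤ Z := by rw [hZ]; exact Nat.le_floor hz
    have e1 := h1 Z (by omega) Q (by omega) hQZ
    rw [pow_one] at e1
    have e2 : l ≤ Real.log Z := by
      rw [hl]
      exact Real.log_le_log hQ0 (by exact_mod_cast hQZ)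
    have e3 : C * (Z / Real.log Z) ≤ ε / 16 * z := by
      have q1 : (Z : ℝ) / Real.log Z ≤ z / l := div_le_div₀ hz0.le hZz hl0 e2
      have q2 : C * (z / l) ≤ ε / 16 * z := by
        rw [mul_div_assoc', div_le_iff₀ hl0]
        have q3 : 16 * C / ε ≤ l := by linarith
        rw [div_le_iff₀ hε] at q3
        nlinarith
      exact (mul_le_mul_of_nonneg_left q1 hC.le).trans q2
    have e4 : (1 : ℝ) ≤ ε / 16 * z := by
      have q1 : 16 / ε ≤ z := by linarith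
      rw [div_le_iff₀ hε] at q1
      linarith
    rw [← hZ]
    rw [abs_le] at e1 ⊢
    constructor <;> linarith [e1.1, e1.2]
  -- the variance
  have hG : ∀ z : ℝ, (Q : ℝ) ≤ z → z ≤ Q * l ^ A → G z Q ≤ (1 + ε / 4) * l * z := by
    intro z hz1 hz2
    have e1 := (abs_le.1 (hvar z hz1 hz2)).2
    have e2 : 0 ≤ z * l := by
      have : 0 < z := by linarith
      positivity
    linarith
  have hxy : 0 < x * y := by positivity
  have hsq : √(G x Q * G y Q) ≤ (1 + ε / 4) * l * √(x * y) := by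
    have e1 : G x Q * G y Q ≤ ((1 + ε / 4) * l) ^ 2 * (x * y) := by
      calc G x Q * G y Q ≤ ((1 + ε / 4) * l * x) * ((1 + ε / 4) * l * y) :=
            mul_le_mul (hG x hx1 hx2) (hG y hy1 hy2) (G_nonneg _ _) (by positivity)
        _ = _ := by ring
    refine (Real.sqrt_le_sqrt e1).trans (le_of_eq ?_)
    rw [Real.sqrt_mul (sq_nonneg _), Real.sqrt_sq (by positivity)]
  have hmain := main_ineq x y hx0.le hy0.le Q (ZMod.unitOfCoprime c hc)
  have hdiff := diff (by linarith : 1 ≤ x) (by linarith : 1 ≤ y) hcQ hc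
  have hp1 := pp_bound hε hQ1 hl0.le hφ hφQ hx1 hy1 (hlog x hx1 hx2) (hlog y hy1 hy2) a4
  have hp2 := pp_bound hε hQ1 hl0.le hφ hφQ hy1 hx1 (hlog y hy1 hy2) (hlog x hx1 hx2) a4
  rw [mul_comm y x] at hp2
  rw [← hφe] at hmain ⊢
  obtain ⟨s, hs⟩ : ∃ s, s = x * y / φ := ⟨_, rfl⟩
  have hs0 : 0 < s := by rw [hs]; positivity
  have hr0 : 0 < √(x * y) := Real.sqrt_pos.2 hxy
  have e5 : l * √(x * y) = φ * l / √(x * y) * s := by
    have q : φ * l / √(x * y) * (x * y / φ) = l * (x * y / √(x * y)) := by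
      have h1 := hr0.ne'
      have h2 := hφ.ne'
      field_simp
    rw [hs, q, Real.div_sqrt]
  have e6 : x / φ * |∑ n ∈ Icc 1 ⌊y⌋₊, vq Q n - y| ≤ ε / 8 * s := by
    calc x / φ * |∑ n ∈ Icc 1 ⌊y⌋₊, vq Q n - y| ≤ x / φ * (ε / 8 * y) :=
          mul_le_mul_of_nonneg_left (hS y hy1) (by positivity)
      _ = ε / 8 * s := by rw [hs]; ring
  have e7 : y / φ * |∑ n ∈ Icc 1 ⌊x⌋₊, vq Q n - x| ≤ ε / 8 * s := by
    calc y / φ * |∑ n ∈ Icc 1 ⌊x⌋₊, vq Q n - x| ≤ y / φ * (ε / 8 * x) :=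
          mul_le_mul_of_nonneg_left (hS x hx1) (by positivity)
      _ = ε / 8 * s := by rw [hs]; ring
  rw [← hs] at hmain hp1 hp2 ⊢
  obtain ⟨r, hr⟩ : ∃ r, r = φ * l / √(x * y) := ⟨_, rfl⟩
  have hr1 : 0 < r := by rw [hr]; positivity
  rw [← hr] at e5 ⊢
  have e8 : (1 + ε / 4) * l * √(x * y) ≤ (1 + ε) * r * s := by
    have q1 : (1 + ε / 4) * l * √(x * y) = (1 + ε / 4) * (r * s) := by rw [← e5]; ring
    rw [q1]
    have q2 : 0 < r * s := by positivity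
    nlinarith
  have e9 : |products x y Q c - s| ≤ |RL x y Q (ZMod.unitOfCoprime c hc) - products x y Q c| +
      |RL x y Q (ZMod.unitOfCoprime c hc) - s| := by
    have := abs_sub_le (products x y Q c) (RL x y Q (ZMod.unitOfCoprime c hc)) s
    rwa [abs_sub_comm (products x y Q c) (RL x y Q (ZMod.unitOfCoprime c hc))] at this
  have e10 : 0 < ε * s := by positivity
  have e11 : (ε + (1 + ε) * r) * s = ε * s + (1 + ε) * r * s := by ring
  rw [e11]
  linarith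

end Pool.Agent.Helper4.TP
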